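import Pool.Agent.Helper61.Apc.Defs

/-!
A Hurewicz type theorem for asymptotic dimension (in the language of chains).
-/

set_option autoImplicit false

namespace Pool.Agent.Helper61.Apc

/-- the class of `x`: all points over `B` with a chain to `x` in `B` -/
private def cls {X Y : Type*} (δY : Y → Y → ℝ) (π : X → Y) (r' : ℝ) (B : Set Y) (x : X) : Set X :=
  {z | π z ∈ B ∧ Relation.ReflTransGen (Step δY r' B) (π z) (π x)}

private theorem cls_eq {X Y : Type*} {δY : Y → Y → ℝ} {π : X → Y} {r' : ℝ} {B : Set Y} {x y : X}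
    (hsymm : ∀ a b, δY a b = δY b a) (hx : π x ∈ B) (hy : π y ∈ B) (h : δY (π x) (π y) ≤ r') :
    cls δY π r' B x = cls δY π r' B y := by
  ext z
  constructor
  · rintro ⟨h1, h2⟩
    exact ⟨h1, h2.tail ⟨hy, h⟩⟩
  · rintro ⟨h1, h2⟩
    exact ⟨h1, h2.tail ⟨hx, by rw [hsymm]; exact h⟩⟩

theorem dim_fib {X Y : Type*} {δX : X → X → ℝ} {δY : Y → Y → ℝ} {s t : ℕ} (π : X → Y)
    (hsymm : ∀ a b, δY a b = δY b a)
    (h1 : ∀ r : ℝ, ∃ r' : ℝ, ∀ a b, δX a b ≤ r → δY (π a) (π b) ≤ r')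
    (hY : Dim δY s)
    (hfib : ∀ ρ r : ℝ, ∃ D : ℝ, ∀ x₀ : X, ∃ A : Fin t → Set X,
      (∀ x, δY (π x₀) (π x) ≤ ρ → ∃ i, x ∈ A i) ∧ ∀ i, ChainBdd δX r D (A i)) :
    Dim δX (s * t) := by
  intro r
  rcases isEmpty_or_nonempty X with hX | hX
  · exact ⟨0, fun _ => ∅, fun x => hX.elim x, fun i x => hX.elim x⟩
  obtain ⟨r', hr'⟩ := h1 r
  obtain ⟨DY, B, hBcov, hBbdd⟩ := hY r'
  obtain ⟨D, hD⟩ := hfib DY r
  choose A hAcov hAbdd using hD
  -- the representative
  let rep : Fin s → X → X := fun i x => Classical.epsilon (fun z => z ∈ cls δY π r' (B i) x)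
  have hrep : ∀ i x, π x ∈ B i → rep i x ∈ cls δY π r' (B i) x := by
    intro i x hx
    exact Classical.epsilon_spec (p := fun z => z ∈ cls δY π r' (B i) x)
      ⟨x, hx, Relation.ReflTransGen.refl⟩
  have hrepY : ∀ i x, π x ∈ B i → δY (π (rep i x)) (π x) ≤ DY := by
    intro i x hx
    obtain ⟨h2, h3⟩ := hrep i x hx
    exact hBbdd i _ h2 _ h3
  refine ⟨D, fun k => {x | π x ∈ B (finProdFinEquiv.symm k).1 ∧
    x ∈ A (rep (finProdFinEquiv.symm k).1 x) (finProdFinEquiv.symm k).2}, ?_, ?_⟩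
  · intro x
    obtain ⟨i, hi⟩ := hBcov (π x)
    obtain ⟨j, hj⟩ := hAcov (rep i x) x (hrepY i x hi)
    refine ⟨finProdFinEquiv (i, j), ?_⟩
    show π x ∈ B (finProdFinEquiv.symm (finProdFinEquiv (i, j))).1 ∧
      x ∈ A (rep (finProdFinEquiv.symm (finProdFinEquiv (i, j))).1 x)
        (finProdFinEquiv.symm (finProdFinEquiv (i, j))).2
    rw [Equiv.symm_apply_apply]
    exact ⟨hi, hj⟩
  · intro k
    set i := (finProdFinEquiv.symm k).1
    set j := (finProdFinEquiv.symm k).2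
    rintro x ⟨hx1, hx2⟩ y hxy
    have key : (π y ∈ B i ∧ y ∈ A (rep i y) j) ∧ rep i y = rep i x ∧
        Relation.ReflTransGen (Step δX r (A (rep i x) j)) x y := by
      induction hxy with
      | refl => exact ⟨⟨hx1, hx2⟩, rfl, Relation.ReflTransGen.refl⟩
      | tail _ hstep ih =>
        rename_i b c hab
        obtain ⟨⟨hb1, hb2⟩, hb3, hb4⟩ := ih
        obtain ⟨⟨hc1, hc2⟩, hbc⟩ := hstep
        have e : rep i b = rep i c := by
          show Classical.epsilon _ = Classical.epsilon _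
          rw [cls_eq hsymm hb1 hc1 (hr' b c hbc)]
        refine ⟨⟨hc1, hc2⟩, e.symm.trans hb3, hb4.tail ⟨?_, hbc⟩⟩
        rw [← hb3, e]
        exact hc2
    exact hAbdd (rep i x) j x hx2 y key.2.2

end Pool.Agent.Helper61.Apc
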