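import Pool.Agent.Helper61.Apc.Defs

/-!
Bounded column operations bring an invertible matrix to block triangular form.
-/

set_option autoImplicit false

namespace Pool.Agent.Helper61.Apc

open Matrix

private theorem pivot_one_le {m K : Type*} [DecidableEq m] [Field K] (v : AbsoluteValue K ℝ)
    (i j : m) : v ((1 : Matrix m m K) i j) ≤ 1 := by
  rw [Matrix.one_apply]
  split_ifs
  · rw [map_one]
  · rw [map_zero]; exact zero_le_one

theorem exists_pivot {n K : Type*} [Fintype n] [DecidableEq n] [Field K]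
    (v : AbsoluteValue K ℝ) : ∃ C : ℝ, ∀ g : GL (n ⊕ Unit) K, ∃ k : GL (n ⊕ Unit) K,
      glSize v k ≤ C ∧ ∃ (a : GL n K) (u : Matrix n Unit K) (b : Kˣ),
        ((g * k : GL (n ⊕ Unit) K) : Matrix (n ⊕ Unit) (n ⊕ Unit) K) =
          Matrix.fromBlocks (a : Matrix n n K) u 0 (Matrix.of fun _ _ => (b : K)) := by
  classical
  refine ⟨∑ _i : n ⊕ Unit, ∑ _j : n ⊕ Unit, (1 + 1 : ℝ), fun g => ?_⟩
  -- the pivot
  obtain ⟨j0, -, hj0⟩ := Finset.exists_max_image (Finset.univ : Finset (n ⊕ Unit))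
    (fun j => v ((g : Matrix (n ⊕ Unit) (n ⊕ Unit) K) (Sum.inr ()) j))
    ⟨Sum.inr (), Finset.mem_univ _⟩
  set G : Matrix (n ⊕ Unit) (n ⊕ Unit) K := (g : Matrix (n ⊕ Unit) (n ⊕ Unit) K) with hG
  have hdet : G.det ≠ 0 := by
    have : IsUnit G.det := (Matrix.isUnit_iff_isUnit_det G).1 ⟨g, rfl⟩
    exact this.ne_zero
  have hpiv : G (Sum.inr ()) j0 ≠ 0 := by
    intro h0
    apply hdet
    apply Matrix.det_eq_zero_of_row_eq_zero (Sum.inr ())
    intro j
    have h1 := hj0 j (Finset.mem_univ j)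
    simp only [h0, map_zero] at h1
    have h2 : v (G (Sum.inr ()) j) = 0 := le_antisymm h1 (v.nonneg _)
    exact v.eq_zero.1 h2
  set σ : Equiv.Perm (n ⊕ Unit) := Equiv.swap j0 (Sum.inr ()) with hσ
  have hσσ : ∀ x, σ (σ x) = x := fun x => Equiv.swap_apply_self _ _ x
  set G' : Matrix (n ⊕ Unit) (n ⊕ Unit) K := G.submatrix id σ with hG'
  have hGG' : G = G'.submatrix id σ := by
    ext i j
    simp only [hG', Matrix.submatrix_apply, id, hσσ]
  have hlast : G' (Sum.inr ()) (Sum.inr ()) = G (Sum.inr ()) j0 := by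
    simp only [hG', Matrix.submatrix_apply, id, hσ, Equiv.swap_apply_right]
  set c : Matrix Unit n K := Matrix.of fun _ i => G' (Sum.inr ()) (Sum.inl i) /
    G' (Sum.inr ()) (Sum.inr ()) with hc
  have hvc : ∀ x i, v (c x i) ≤ 1 := by
    intro x i
    rw [hc, Matrix.of_apply, map_div₀, hlast]
    have hpos : 0 < v (G (Sum.inr ()) j0) := v.pos hpiv
    rw [div_le_one hpos]
    exact hj0 _ (Finset.mem_univ _)
  set k2 : Matrix (n ⊕ Unit) (n ⊕ Unit) K := Matrix.fromBlocks 1 0 (-c) 1 with hk2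
  set k2' : Matrix (n ⊕ Unit) (n ⊕ Unit) K := Matrix.fromBlocks 1 0 c 1 with hk2'
  have hm1 : k2 * k2' = 1 := by
    rw [hk2, hk2', Matrix.fromBlocks_multiply]
    simp [Matrix.fromBlocks_one]
  have hm2 : k2' * k2 = 1 := by
    rw [hk2, hk2', Matrix.fromBlocks_multiply]
    simp [Matrix.fromBlocks_one]
  have hv2 : ∀ i j, v (k2 i j) ≤ 1 := by
    rintro (i | i) (j | j)
    · rw [hk2, Matrix.fromBlocks_apply₁₁]; exact pivot_one_le v i j
    · rw [hk2, Matrix.fromBlocks_apply₁₂, Matrix.zero_apply, map_zero]; exact zero_le_one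
    · rw [hk2, Matrix.fromBlocks_apply₂₁, Matrix.neg_apply, map_neg_eq_map]; exact hvc i j
    · rw [hk2, Matrix.fromBlocks_apply₂₂]; exact pivot_one_le v i j
  have hv2' : ∀ i j, v (k2' i j) ≤ 1 := by
    rintro (i | i) (j | j)
    · rw [hk2', Matrix.fromBlocks_apply₁₁]; exact pivot_one_le v i j
    · rw [hk2', Matrix.fromBlocks_apply₁₂, Matrix.zero_apply, map_zero]; exact zero_le_one
    · rw [hk2', Matrix.fromBlocks_apply₂₁]; exact hvc i j
    · rw [hk2', Matrix.fromBlocks_apply₂₂]; exact pivot_one_le v i j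
  have hK1 : k2.submatrix σ id * k2'.submatrix id σ = 1 := by
    have h1 := Matrix.submatrix_mul_equiv k2 k2' σ (Equiv.refl (n ⊕ Unit)) σ
    rw [hm1] at h1
    have h2 : (1 : Matrix (n ⊕ Unit) (n ⊕ Unit) K).submatrix σ σ = 1 :=
      Matrix.submatrix_one_equiv σ
    rw [h2] at h1
    exact h1
  have hK2 : k2'.submatrix id σ * k2.submatrix σ id = 1 := by
    have h1 := Matrix.submatrix_mul_equiv k2' k2 id σ id
    rw [hm2] at h1
    rw [h1]
    exact Matrix.submatrix_id_id _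
  let k : GL (n ⊕ Unit) K := ⟨k2.submatrix σ id, k2'.submatrix id σ, hK1, hK2⟩
  have hmul : ((g * k : GL (n ⊕ Unit) K) : Matrix (n ⊕ Unit) (n ⊕ Unit) K) = G' * k2 := by
    show G * k2.submatrix σ id = G' * k2
    rw [hGG']
    have h1 := Matrix.submatrix_mul_equiv G' k2 id σ id
    rw [Matrix.submatrix_id_id] at h1
    exact h1
  -- the blocks
  have hblk : G' * k2 = Matrix.fromBlocks (G'.toBlocks₁₁ - G'.toBlocks₁₂ * c) G'.toBlocks₁₂ 0
      (Matrix.of fun _ _ => G (Sum.inr ()) j0) := by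
    conv_lhs => rw [← Matrix.fromBlocks_toBlocks G', hk2, Matrix.fromBlocks_multiply]
    congr 1
    · simp [sub_eq_add_neg]
    · simp
    · ext x i
      simp only [Matrix.mul_one, Matrix.mul_neg, Matrix.add_apply, Matrix.neg_apply,
        Matrix.zero_apply, Matrix.mul_apply, Finset.univ_unique, Finset.sum_singleton,
        Matrix.toBlocks₂₁, Matrix.toBlocks₂₂, Matrix.of_apply, hc]
      have h2 : G' (Sum.inr ()) (Sum.inr ()) ≠ 0 := by rw [hlast]; exact hpiv
      have hx : x = () := rfl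
      subst hx
      show G' (Sum.inr ()) (Sum.inl i) + -(G' (Sum.inr ()) (Sum.inr ()) *
        (G' (Sum.inr ()) (Sum.inl i) / G' (Sum.inr ()) (Sum.inr ()))) = 0
      field_simp
      ring
    · ext x y
      simp only [Matrix.mul_zero, Matrix.mul_one, zero_add, Matrix.toBlocks₂₂, Matrix.of_apply]
      exact hlast
  have hdet2 : (G'.toBlocks₁₁ - G'.toBlocks₁₂ * c).det ≠ 0 := by
    intro h0
    have h1 : (G' * k2).det ≠ 0 := by
      rw [← hmul]
      have : IsUnit ((g * k : GL (n ⊕ Unit) K) : Matrix (n ⊕ Unit) (n ⊕ Unit) K).det :=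
        (Matrix.isUnit_iff_isUnit_det _).1 ⟨g * k, rfl⟩
      exact this.ne_zero
    apply h1
    rw [hblk, Matrix.det_fromBlocks_zero₂₁, h0, zero_mul]
  refine ⟨k, ?_, ((Matrix.isUnit_iff_isUnit_det _).2 (isUnit_iff_ne_zero.2 hdet2)).unit,
    G'.toBlocks₁₂, Units.mk0 _ hpiv, ?_⟩
  · refine Finset.sum_le_sum fun i _ => Finset.sum_le_sum fun j _ => add_le_add ?_ ?_
    · exact hv2 (σ i) j
    · exact hv2' i (σ j)
  · rw [hmul, hblk]
    rfl

end Pool.Agent.Helper61.Apc
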